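import Pool.Agent.helper16.EXT.Spec3T

set_option autoImplicit false

/-!
# Row IFN: the fourth point
-/

open Finset

namespace Pool.Agent.EXT

open Pool.Agent.EXC

theorem IFN_main (hRTF : RTF_stmt) (hSGR : SGR_stmt) (hPCS : PCS_stmt) (hTFS : TFS_stmt) (K : Type) [Field K]
    (τ : K ≃+* K) (hτ : ∀ x, τ (τ x) = x) (a b : Lm C6 K) (m : ℤ) (h : TpS τ a b m) :
    ∃ f, ExS τ f ∧ TpS τ a f (-m) ∧ TpS τ b f (-2) ∧ fm C6 b f = -1 := by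
  have hExb : ExS τ b := (hTFS K τ hτ a b m h).2.1
  obtain ⟨k, hk, β, hβ, hm, c, c', hcτ, hcτ', hc, hc', hka, hkb⟩ := h
  have hnβ : LR (-β) := ⟨neg_root C6 hβ.1, by rw [hRTF.2.2.2.1, hβ.2]⟩
  have hμ : -c'⁻¹ ≠ 0 := neg_ne_zero.2 (inv_ne_zero hc')
  have hμτ : τ (-c'⁻¹) = -c'⁻¹ := by rw [map_neg, map_inv₀, hcτ']
  have hkf : k ((-c'⁻¹) • k⁻¹ (E C6 (-β))) = (-c'⁻¹) • (E C6 (-β) : Lm C6 K) := by
    rw [map_smul]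
    congr 1
    rw [← LinearEquiv.mul_apply, mul_inv_cancel]
    rfl
  have hf : ExS τ ((-c'⁻¹) • k⁻¹ (E C6 (-β) : Lm C6 K)) :=
    ⟨k⁻¹, inv_mem hk, -β, hnβ, -c'⁻¹, hμτ, hμ, rfl⟩
  have hfm : fm C6 b ((-c'⁻¹) • k⁻¹ (E C6 (-β))) = -1 := by
    rw [← ((hSGR K τ hτ).2.2.2.2.2 k hk).2.1.fm, hkf, hkb, fm_smul_left, fm_smul_right, fm_E_E C6 hβ.1 hnβ.1, if_pos rfl]
    field_simp
  refine ⟨(-c'⁻¹) • k⁻¹ (E C6 (-β)), hf, ⟨k, hk, -β, hnβ, ?_, c, -c'⁻¹, hcτ, hμτ, hc, hμ, hka, hkf⟩, ?_, hfm⟩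
  · rw [ip_neg_right, hm]
  · obtain ⟨m', -, -, hT⟩ := hPCS K τ hτ b _ hExb hf
    have h1 := (hTFS K τ hτ _ _ m' hT).2.2.2.2.2.2.1.1 (by rw [hfm]; exact neg_ne_zero.2 one_ne_zero)
    rw [← h1]
    exact hT

theorem IFN (hRTF : RTF_stmt) (hSGR : SGR_stmt) (hPCS : PCS_stmt) (hTFS : TFS_stmt) : IFN_stmt := by
  intro K _ τ hτ a b
  constructor
  · intro h
    have h1 := IFN_main hRTF hSGR hPCS hTFS K τ hτ a b 0 h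
    rwa [neg_zero] at h1
  · intro h
    have h1 := IFN_main hRTF hSGR hPCS hTFS K τ hτ a b (-1) h
    rwa [neg_neg] at h1

end Pool.Agent.EXT
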